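import Mathlib

set_option autoImplicit false

namespace Pool.Agent.Results.MP_856f66_gt.Balls

open Metric Set UniformSpace

universe u v w

/-- closed balls of strictly positive radius, as subsets -/
def B0 (X : Type u) [MetricSpace X] : Type u := {A : Set X // ∃ c r, 0 < r ∧ A = closedBall c r}

/-- the spaces of positive-radius balls are isometric for the Hausdorff distance -/
def BallIso (X : Type u) (Y : Type v) [MetricSpace X] [MetricSpace Y] : Prop :=
  ∃ Φ : B0 X ≃ B0 Y, ∀ A B, hausdorffDist (Φ A).1 (Φ B).1 = hausdorffDist A.1 B.1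

section basic

variable {X : Type u} {Y : Type v} {Z : Type w} [MetricSpace X] [MetricSpace Y] [MetricSpace Z]

lemma iso_symm (Φ : B0 X ≃ B0 Y)
    (h : ∀ A B, hausdorffDist (Φ A).1 (Φ B).1 = hausdorffDist A.1 B.1) :
    ∀ A B, hausdorffDist (Φ.symm A).1 (Φ.symm B).1 = hausdorffDist A.1 B.1 := fun A B => by
  rw [← h, Φ.apply_symm_apply, Φ.apply_symm_apply]

lemma BallIso.symm (h : BallIso X Y) : BallIso Y X :=
  h.elim fun Φ h => ⟨Φ.symm, iso_symm Φ h⟩

lemma BallIso.trans (h : BallIso X Y) (k : BallIso Y Z) : BallIso X Z :=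
  h.elim fun Φ h => k.elim fun Ψ k => ⟨Φ.trans Ψ, fun A B => (k _ _).trans (h A B)⟩

def im (e : X ≃ᵢ Y) (A : B0 X) : B0 Y :=
  ⟨e '' A.1, by
    obtain ⟨c, r, hr, h⟩ := A.2
    exact ⟨e c, r, hr, by rw [h, e.image_closedBall]⟩⟩

lemma of_iso (e : X ≃ᵢ Y) : BallIso X Y :=
  ⟨⟨im e, im e.symm, fun A => Subtype.ext (by simp [im, image_image]),
    fun A => Subtype.ext (by simp [im, image_image])⟩, fun _ _ => hausdorffDist_image e.isometry⟩

lemma B0.ne (A : B0 X) : A.1.Nonempty := by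
  obtain ⟨c, r, hr, h⟩ := A.2
  exact ⟨c, by rw [h]; exact mem_closedBall_self hr.le⟩

lemma B0.bd (A : B0 X) : Bornology.IsBounded A.1 := by
  obtain ⟨c, r, hr, h⟩ := A.2
  rw [h]; exact isBounded_closedBall

def mk (c : X) (r : ℝ) (hr : 0 < r) : B0 X := ⟨closedBall c r, c, r, hr, rfl⟩

lemma hd_le {A B : B0 X} {t : ℝ} (h : ∀ p ∈ A.1, ∀ q ∈ B.1, dist p q ≤ t) :
    hausdorffDist A.1 B.1 ≤ t := by
  obtain ⟨a, ha⟩ := A.ne
  obtain ⟨b, hb⟩ := B.ne
  exact hausdorffDist_le_of_mem_dist (dist_nonneg.trans (h a ha b hb))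
    (fun p hp => ⟨b, hb, h p hp b hb⟩) (fun q hq => ⟨a, ha, dist_comm a q ▸ h a ha q hq⟩)

variable [IsUltrametricDist X]

lemma ultra {x y z : X} {t : ℝ} (h1 : dist x y ≤ t) (h2 : dist y z ≤ t) : dist x z ≤ t :=
  (IsUltrametricDist.dist_triangle_max x y z).trans (max_le h1 h2)

lemma diam_le (c : X) {r : ℝ} (hr : 0 ≤ r) : diam (closedBall c r) ≤ r :=
  diam_le_of_forall_dist_le hr fun _ hp _ hq => ultra hp (mem_closedBall'.mp hq)

lemma B0.eq (A : B0 X) {a : X} (ha : a ∈ A.1) : A.1 = closedBall a (diam A.1) := by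
  refine Subset.antisymm (fun p hp => dist_le_diam_of_mem A.bd hp ha) ?_
  obtain ⟨c, r, hr, h⟩ := A.2
  have h2 : diam A.1 ≤ r := h ▸ diam_le c hr.le
  refine (closedBall_subset_closedBall h2).trans ?_
  rw [h] at ha ⊢
  exact (IsUltrametricDist.closedBall_eq_of_mem ha).ge

lemma out_le {A B : B0 X} {a b : X} (ha : a ∈ A.1) (ha' : a ∉ B.1) (hb : b ∈ B.1) :
    diam B.1 < dist a b ∧ dist a b ≤ hausdorffDist A.1 B.1 := by
  have h1 : ∀ b ∈ B.1, diam B.1 < dist a b := fun b hb => by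
    rw [B.eq hb] at ha'
    exact not_le.mp ha'
  refine ⟨h1 b hb, le_trans ?_ (infDist_le_hausdorffDist_of_mem ha
    (hausdorffEDist_ne_top_of_nonempty_of_bounded A.ne B.ne A.bd B.bd))⟩
  rw [le_infDist B.ne]
  intro q hq
  exact ultra le_rfl ((dist_le_diam_of_mem B.bd hq hb).trans (h1 q hq).le)

lemma le_hd_aux {A B : B0 X} {a : X} (ha : a ∈ A.1) (ha' : a ∉ B.1) :
    ∀ p ∈ A.1 ∪ B.1, ∀ q ∈ A.1 ∪ B.1, dist p q ≤ hausdorffDist A.1 B.1 := by
  obtain ⟨b, hb⟩ := B.ne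
  have h1 : ∀ p ∈ A.1 ∪ B.1, dist p b ≤ hausdorffDist A.1 B.1 := by
    intro p hp
    by_cases h : p ∈ B.1
    · exact (dist_le_diam_of_mem B.bd h hb).trans
        ((out_le ha ha' hb).1.le.trans (out_le ha ha' hb).2)
    · exact (out_le (hp.resolve_right h) h hb).2
  exact fun p hp q hq => ultra (h1 p hp) (dist_comm q b ▸ h1 q hq)

lemma le_hd {A B : B0 X} (h : A ≠ B) :
    ∀ p ∈ A.1 ∪ B.1, ∀ q ∈ A.1 ∪ B.1, dist p q ≤ hausdorffDist A.1 B.1 := by
  by_cases h1 : A.1 ⊆ B.1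
  · have : ¬ B.1 ⊆ A.1 := fun h2 => h (Subtype.ext (h1.antisymm h2))
    obtain ⟨a, ha, ha'⟩ := not_subset.mp this
    rw [union_comm, hausdorffDist_comm]
    exact le_hd_aux ha ha'
  · obtain ⟨a, ha, ha'⟩ := not_subset.mp h1
    exact le_hd_aux ha ha'

lemma diam_le_hd {A B : B0 X} (h : A ≠ B) : diam B.1 ≤ hausdorffDist A.1 B.1 :=
  diam_le_of_forall_dist_le hausdorffDist_nonneg fun p hp q hq =>
    le_hd h p (Or.inr hp) q (Or.inr hq)

lemma exists_near (A : B0 X) (h : 0 < diam A.1) :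
    ∃ C : B0 X, C ≠ A ∧ hausdorffDist C.1 A.1 ≤ diam A.1 := by
  obtain ⟨a, ha⟩ := A.ne
  refine ⟨mk a (diam A.1 / 2) (by positivity), ?_, hd_le fun p hp q hq => ?_⟩
  · intro e
    have := diam_le a (r := diam A.1 / 2) (by positivity)
    have e2 : closedBall a (diam A.1 / 2) = A.1 := congrArg Subtype.val e
    rw [e2] at this
    linarith
  · exact ultra (le_trans hp (by linarith)) (dist_le_diam_of_mem A.bd ha hq)

instance : IsUltrametricDist (Completion X) := ⟨fun x y z => by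
  refine Completion.induction_on₃ x y z (isClosed_le (by fun_prop) (by fun_prop)) fun a b c => ?_
  simpa only [Completion.dist_eq] using IsUltrametricDist.dist_triangle_max a b c⟩

lemma cl_ball (c : X) {r : ℝ} (hr : 0 < r) :
    closure (((↑) : X → Completion X) '' closedBall c r) = closedBall (c : Completion X) r := by
  rw [← Completion.coe_isometry.preimage_closedBall]
  exact Subset.antisymm (closure_minimal (image_preimage_subset _ _) isClosed_closedBall)
    (Completion.denseRange_coe.subset_closure_image_preimage_of_isOpen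
      (IsUltrametricDist.isOpen_closedBall _ hr.ne'))

lemma center (z : Completion X) {r : ℝ} (hr : 0 < r) :
    ∃ c : X, closedBall z r = closedBall (c : Completion X) r := by
  obtain ⟨c, hc⟩ := Completion.denseRange_coe.exists_dist_lt z hr
  exact ⟨c, IsUltrametricDist.closedBall_eq_of_mem (mem_closedBall'.mpr hc.le)⟩

lemma compl_iso : BallIso X (Completion X) := by
  refine ⟨⟨fun A => ⟨closure (((↑) : X → Completion X) '' A.1), ?_⟩,
    fun A => ⟨((↑) : X → Completion X) ⁻¹' A.1, ?_⟩, fun A => Subtype.ext ?_,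
    fun A => Subtype.ext ?_⟩, fun A B => ?_⟩
  · obtain ⟨c, r, hr, h⟩ := A.2
    exact ⟨c, r, hr, by rw [h, cl_ball c hr]⟩
  · obtain ⟨z, r, hr, h⟩ := A.2
    obtain ⟨c, hc⟩ := center z hr
    exact ⟨c, r, hr, by rw [h, hc, Completion.coe_isometry.preimage_closedBall]⟩
  · obtain ⟨c, r, hr, h⟩ := A.2
    simp only
    rw [h, cl_ball c hr, Completion.coe_isometry.preimage_closedBall]
  · obtain ⟨z, r, hr, h⟩ := A.2
    obtain ⟨c, hc⟩ := center z hr
    simp only
    rw [h, hc, Completion.coe_isometry.preimage_closedBall, cl_ball c hr]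
  · exact hausdorffDist_closure.trans (hausdorffDist_image Completion.coe_isometry)

end basic

section main

variable {X : Type u} {Y : Type v} [MetricSpace X] [MetricSpace Y] [IsUltrametricDist X]
  [IsUltrametricDist Y] (Φ : B0 X ≃ B0 Y)
  (h : ∀ A B, hausdorffDist (Φ A).1 (Φ B).1 = hausdorffDist A.1 B.1)

def R1 (x : X) (y : Y) : Prop :=
  ∀ r > 0, ∃ A : B0 X, (∀ p ∈ A.1, dist p x ≤ r) ∧ ∀ q ∈ (Φ A).1, dist q y ≤ r

def R2 (x : X) (y : Y) : Prop :=
  ∃ A A' : B0 X, A.1 = {x} ∧ x ∈ A'.1 ∧ (Φ A').1 = {y} ∧ y ∈ (Φ A).1 ∧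
    diam A'.1 = diam (Φ A).1 ∧ 0 < diam A'.1

omit [IsUltrametricDist X] [IsUltrametricDist Y] in
lemma R_symm {x : X} {y : Y} (h : R1 Φ x y ∨ R2 Φ x y) : R1 Φ.symm y x ∨ R2 Φ.symm y x := by
  rcases h with h | ⟨A, A', h1, h2, h3, h4, h5, h6⟩
  · refine Or.inl fun r hr => ?_
    obtain ⟨A, h1, h2⟩ := h r hr
    exact ⟨Φ A, h2, by rwa [Φ.symm_apply_apply]⟩
  · refine Or.inr ⟨Φ A', Φ A, h3, h4, ?_, ?_, ?_, h5 ▸ h6⟩ <;> rw [Φ.symm_apply_apply]
    exacts [h1, h2, h5.symm]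

include h in
lemma diam_img (A : B0 X) (h0 : 0 < diam A.1) : diam (Φ A).1 ≤ diam A.1 := by
  obtain ⟨C, h1, h2⟩ := exists_near A h0
  exact (diam_le_hd (Φ.injective.ne h1)).trans ((h C A).trans_le h2)

include h in
lemma pair_le {A B : B0 X} (hAB : A ≠ B) {x x' : X} {y y' : Y} {r : ℝ} (hr : dist x x' ≤ r)
    (a1 : ∀ p ∈ A.1, dist p x ≤ r) (b1 : ∀ p ∈ B.1, dist p x' ≤ r)
    (a2 : ∃ q ∈ (Φ A).1, dist q y ≤ r) (b2 : ∃ q ∈ (Φ B).1, dist q y' ≤ r) : dist y y' ≤ r := by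
  obtain ⟨q, q1, q2⟩ := a2
  obtain ⟨q', q3, q4⟩ := b2
  have := (le_hd (Φ.injective.ne hAB) q (Or.inl q1) q' (Or.inr q3)).trans ((h A B).trans_le
    (hd_le fun p hp p' hp' => ultra (a1 p hp) (ultra hr (dist_comm p' x' ▸ b1 p' hp'))))
  exact ultra (dist_comm q y ▸ q2) (ultra this q4)

include h in
lemma r12 {x x' : X} {y y' : Y} (h1 : R1 Φ x y) (h2 : R2 Φ x' y') : dist y y' ≤ dist x x' := by
  refine le_of_forall_gt_imp_ge_of_dense fun r hr => ?_
  have hr0 : 0 < r := dist_nonneg.trans_lt hr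
  obtain ⟨B, B', b1, -, -, b4, b5, b6⟩ := h2
  obtain ⟨A, a1, a2⟩ := h1 (min r (diam B'.1 / 2)) (by positivity)
  obtain ⟨q, hq⟩ := (Φ A).ne
  refine pair_le Φ h (A := A) (B := B) ?_ hr.le (fun p hp => (a1 p hp).trans (min_le_left _ _))
    (fun p hp => by rw [b1, mem_singleton_iff] at hp; simp [hp, hr0.le])
    ⟨q, hq, (a2 q hq).trans (min_le_left _ _)⟩ ⟨y', b4, by simp [hr0.le]⟩
  rintro rfl
  have : diam (Φ A).1 ≤ diam B'.1 / 2 := diam_le_of_forall_dist_le (by positivity)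
    fun p hp p' hp' => ultra ((a2 p hp).trans (min_le_right _ _))
      (dist_comm p' y ▸ (a2 p' hp').trans (min_le_right _ _))
  linarith

include h in
lemma R_le {x x' : X} {y y' : Y} (h1 : R1 Φ x y ∨ R2 Φ x y) (h2 : R1 Φ x' y' ∨ R2 Φ x' y') :
    dist y y' ≤ dist x x' := by
  rcases h1 with h1 | h1 <;> rcases h2 with h2 | h2
  · refine le_of_forall_gt_imp_ge_of_dense fun r hr => ?_
    have hr0 : 0 < r := dist_nonneg.trans_lt hr
    obtain ⟨A, a1, a2⟩ := h1 r hr0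
    obtain ⟨B, b1, b2⟩ := h2 r hr0
    obtain ⟨q, hq⟩ := (Φ A).ne
    obtain ⟨q', hq'⟩ := (Φ B).ne
    by_cases e : A = B
    · subst e
      exact ultra (dist_comm q y ▸ a2 q hq) (b2 q hq)
    · exact pair_le Φ h e hr.le a1 b1 ⟨q, hq, a2 q hq⟩ ⟨q', hq', b2 q' hq'⟩
  · exact r12 Φ h h1 h2
  · rw [dist_comm, dist_comm x]; exact r12 Φ h h2 h1
  · obtain ⟨A, A', a1, a2, a3, a4, a5, -⟩ := h1
    obtain ⟨B, B', b1, b2, b3, b4, b5, -⟩ := h2
    by_cases e : A = B
    · subst e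
      have e1 : x = x' := singleton_injective (a1.symm.trans b1)
      subst e1
      have e2 : A' = B' := Subtype.ext (by rw [A'.eq a2, B'.eq b2, a5, b5])
      subst e2
      rw [singleton_injective (a3.symm.trans b3)]
      simp
    · exact pair_le Φ h e le_rfl (fun p hp => by rw [a1, mem_singleton_iff] at hp; simp [hp])
        (fun p hp => by rw [b1, mem_singleton_iff] at hp; simp [hp]) ⟨y, a4, by simp⟩
        ⟨y', b4, by simp⟩

include h in
lemma R_total [CompleteSpace Y] (x : X) : ∃ y, R1 Φ x y ∨ R2 Φ x y := by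
  by_cases hx : ∃ A : B0 X, A.1 = {x}
  · obtain ⟨A, hA⟩ := hx
    rcases (diam_nonneg (s := (Φ A).1)).eq_or_lt with h0 | h0
    · obtain ⟨y, hy⟩ := (Φ A).ne
      refine ⟨y, Or.inl fun r hr => ⟨A, fun p hp => ?_, fun q hq => ?_⟩⟩
      · rw [hA, mem_singleton_iff] at hp; simp [hp, hr.le]
      · exact (dist_le_diam_of_mem (Φ A).bd hq hy).trans (h0 ▸ hr.le)
    · set s := diam (Φ A).1 with hs
      have hxA : x ∈ A.1 := by rw [hA]; rfl
      obtain ⟨C, c1, c2⟩ := exists_near (Φ A) h0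
      obtain ⟨E, rfl⟩ := Φ.surjective C
      have c3 : E ≠ A := fun e => c1 (e ▸ rfl)
      rw [h] at c2
      obtain ⟨z, z1, z2⟩ : ∃ z ∈ E.1, z ≠ x := by
        by_contra hc
        push Not at hc
        exact c3 (Subtype.ext (hA ▸ (E.ne.subset_singleton_iff.mp hc)))
      have z3 : dist z x ≤ s := (le_hd c3 z (Or.inl z1) x (Or.inr hxA)).trans c2
      have hne : ∀ (r : ℝ) (hr : 0 < r), dist z x ≤ r → mk x r hr ≠ A := by
        intro r hr h1 e
        have e2 : closedBall x r = A.1 := congrArg Subtype.val e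
        exact z2 (by rw [← mem_singleton_iff, ← hA, ← e2]; exact h1)
      have hH : ∀ (r : ℝ) (hr : 0 < r), hausdorffDist (Φ (mk x r hr)).1 (Φ A).1 ≤ r := by
        intro r hr
        rw [h]
        exact hd_le fun p hp q hq => by rw [hA, mem_singleton_iff] at hq; rw [hq]; exact hp
      have z4 : s ≤ dist z x :=
        (diam_le_hd (Φ.injective.ne (hne _ (dist_pos.mpr z2) le_rfl))).trans (hH _ _)
      set A' := mk x s h0
      have d1 : diam A'.1 = s := le_antisymm (diam_le x h0.le)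
        (z4.trans (dist_le_diam_of_mem A'.bd z3 (mem_closedBall_self h0.le)))
      obtain ⟨y, hy⟩ := (Φ A').ne
      obtain ⟨b, hb⟩ := (Φ A).ne
      have n1 := Φ.injective.ne (hne s h0 z3)
      have y1 : y ∈ (Φ A).1 := by
        rw [(Φ A).eq hb]
        exact (le_hd n1 y (Or.inl hy) b (Or.inr hb)).trans (hH s h0)
      refine ⟨y, Or.inr ⟨A, A', hA, mem_closedBall_self h0.le, ?_, y1, d1, d1 ▸ h0⟩⟩
      rcases (diam_nonneg (s := (Φ A').1)).eq_or_lt with h1 | h1
      · rw [(Φ A').eq hy, ← h1, closedBall_zero]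
      · exfalso
        have e1 := diam_img Φ h A' (d1 ▸ h0)
        have e2 := diam_img Φ.symm (iso_symm Φ h) (Φ A') h1
        rw [Φ.symm_apply_apply] at e2
        exact n1 (Subtype.ext (by rw [(Φ A').eq hy, (Φ A).eq y1, le_antisymm e1 e2, d1]))
  · let A : ℕ → B0 X := fun n => mk x (1 / (n + 1 : ℝ)) Nat.one_div_pos_of_nat
    have hd : ∀ n, diam (Φ (A n)).1 ≤ 1 / (n + 1 : ℝ) := by
      intro n
      refine (diam_img Φ h _ ?_).trans (diam_le x Nat.one_div_pos_of_nat.le)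
      refine lt_of_le_of_ne diam_nonneg fun e => hx ⟨A n, ?_⟩
      rw [(A n).eq (mem_closedBall_self Nat.one_div_pos_of_nat.le), ← e, closedBall_zero]
    have hp : ∀ N n, N ≤ n → ∀ q ∈ (Φ (A N)).1, ∀ q' ∈ (Φ (A n)).1,
        dist q q' ≤ 1 / (N + 1 : ℝ) := by
      intro N n hn q hq q' hq'
      by_cases e : A N = A n
      · exact (dist_le_diam_of_mem (Φ (A N)).bd hq (e ▸ hq')).trans (hd N)
      · exact pair_le Φ h e (x := x) (x' := x) (by simp; positivity) (fun p hp => hp)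
          (fun p hp => le_trans hp (Nat.one_div_le_one_div hn)) ⟨q, hq, by simp; positivity⟩
          ⟨q', hq', by simp; positivity⟩
    choose y hy using fun n => (Φ (A n)).ne
    obtain ⟨l, hl⟩ := cauchySeq_tendsto_of_complete (cauchySeq_of_le_tendsto_0
      (s := y) (fun N => 1 / (N + 1 : ℝ)) (fun n m N hn hm =>
        ultra (dist_comm (y N) (y n) ▸ hp N n hn _ (hy N) _ (hy n)) (hp N m hm _ (hy N) _ (hy m)))
      tendsto_one_div_add_atTop_nhds_zero_nat)
    refine ⟨l, Or.inl fun r hr => ?_⟩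
    obtain ⟨N, hN⟩ := exists_nat_one_div_lt hr
    refine ⟨A N, fun p hp => le_trans hp hN.le, fun q hq => le_trans ?_ hN.le⟩
    exact le_of_tendsto (tendsto_const_nhds.dist hl)
      (Filter.eventually_atTop.mpr ⟨N, fun n hn => hp N n hn q hq _ (hy n)⟩)

include h in
lemma iso_of [CompleteSpace X] [CompleteSpace Y] : Nonempty (X ≃ᵢ Y) := by
  choose F hF using R_total Φ h
  have h1 : Isometry F := Isometry.of_dist_eq fun a b => le_antisymm (R_le Φ h (hF a) (hF b))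
    (R_le Φ.symm (iso_symm Φ h) (R_symm Φ (hF a)) (R_symm Φ (hF b)))
  have h2 : Function.Surjective F := fun y => by
    obtain ⟨x, hx⟩ := R_total Φ.symm (iso_symm Φ h) y
    have := R_le Φ h (hF x) (R_symm Φ.symm hx)
    exact ⟨x, by simpa using this⟩
  exact ⟨⟨Equiv.ofBijective F ⟨h1.injective, h2⟩, h1⟩⟩

end main

theorem result (X : Type u) (Y : Type v) [MetricSpace X] [MetricSpace Y] [IsUltrametricDist X]
    [IsUltrametricDist Y] : Nonempty (Completion X ≃ᵢ Completion Y) ↔ BallIso X Y := by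
  refine ⟨fun ⟨e⟩ => (compl_iso.trans (of_iso e)).trans compl_iso.symm, fun h => ?_⟩
  obtain ⟨Φ, hΦ⟩ := (compl_iso.symm.trans h).trans compl_iso
  exact iso_of Φ hΦ

end Pool.Agent.Results.MP_856f66_gt.Balls
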